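import Mathlib

/-! The space: points of a product of well-orders with a top added that are below the top
infinitely often, with the product topology refined by the sets lying above a member of a scale. -/

set_option autoImplicit false

namespace Pool.Agent.H105Z.DL

open Filter Topology Set

variable {K : ℕ → Type} [∀ n, LinearOrder (K n)] {Λ : Type}

/-- The underlying set. -/
def Sp (_f : Λ → ∀ n, K n) : Type := {x : ∀ n, WithTop (K n) // ∃ᶠ n in atTop, x n ≠ ⊤}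

/-- The sets with one coordinate bounded above. -/
def LL (f : Λ → ∀ n, K n) (n : ℕ) (c : WithTop (K n)) : Set (Sp f) := {x | x.1 n ≤ c}

/-- The sets lying above a member of the scale from some coordinate on. -/
def ZZ (f : Λ → ∀ n, K n) (a : Λ) (m : ℕ) : Set (Sp f) :=
  {x | ∀ n, m ≤ n → (f a n : WithTop (K n)) < x.1 n}

/-- The generating clopen sets. -/
def GG (f : Λ → ∀ n, K n) : ((Σ n, K n) ⊕ (Λ × ℕ)) → Set (Sp f)
  | Sum.inl p => LL f p.1 p.2
  | Sum.inr p => ZZ f p.1 p.2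

open Classical in
/-- The embedding into a Cantor cube. -/
noncomputable def emb (f : Λ → ∀ n, K n) (x : Sp f) (j : (Σ n, K n) ⊕ (Λ × ℕ)) : Bool :=
  decide (x ∈ GG f j)

noncomputable instance instTopSp (f : Λ → ∀ n, K n) : TopologicalSpace (Sp f) :=
  TopologicalSpace.induced (emb f) inferInstance

/-- The points lying below `h` infinitely often. -/
def CC (f : Λ → ∀ n, K n) (h : ∀ n, K n) : Set (Sp f) :=
  {x | ∃ᶠ n in atTop, x.1 n ≤ (h n : WithTop (K n))}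

variable {f : Λ → ∀ n, K n}

theorem le_nhds_iff' (F : Filter (Sp f)) (y : Sp f) :
    F ≤ 𝓝 y ↔ ∀ j, ∀ᶠ x in F, (x ∈ GG f j ↔ y ∈ GG f j) := by
  rw [nhds_induced, ← map_le_iff_le_comap]
  change Tendsto (emb f) F (𝓝 (emb f y)) ↔ _
  rw [tendsto_pi_nhds]
  refine forall_congr' fun j => ?_
  rw [nhds_discrete, tendsto_pure]
  simp only [emb, decide_eq_decide]

theorem isClopen_GG (j : (Σ n, K n) ⊕ (Λ × ℕ)) : IsClopen (GG f j) := by
  have hc0 : Continuous (emb f) := continuous_induced_dom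
  have hc : Continuous fun x : Sp f => emb f x j := (continuous_apply j).comp hc0
  have : GG f j = (fun x : Sp f => emb f x j) ⁻¹' {true} := by
    ext x; simp [emb]
  rw [this]
  exact (isClopen_discrete _).preimage hc

theorem isClopen_LL (n : ℕ) (c : K n) : IsClopen (LL f n c) := isClopen_GG (Sum.inl ⟨n, c⟩)

theorem isClopen_ZZ (a : Λ) (m : ℕ) : IsClopen (ZZ f a m) := isClopen_GG (Sum.inr (a, m))

theorem emb_inj : Function.Injective (emb f) := by
  have aux : ∀ x y : Sp f, emb f x = emb f y → ∀ n, ¬ x.1 n < y.1 n := by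
    intro x y h n hlt
    obtain ⟨c, hc⟩ := WithTop.ne_top_iff_exists.1 hlt.ne_top
    have h1 := congrFun h (Sum.inl ⟨n, c⟩)
    simp only [emb, decide_eq_decide, GG, LL, mem_setOf_eq] at h1
    exact hlt.not_ge ((h1.1 hc.ge).trans hc.le)
  intro x y h
  refine Subtype.ext (funext fun n => ?_)
  exact le_antisymm (not_lt.1 (aux y x h.symm n)) (not_lt.1 (aux x y h n))

theorem t35 : T35Space (Sp f) :=
  (Topology.IsEmbedding.mk ⟨rfl⟩ emb_inj : Topology.IsEmbedding (emb f)).t35Space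

theorem not_mem_CC {a : Λ} {x : Sp f} : x ∉ CC f (f a) ↔ ∃ m, x ∈ ZZ f a m := by
  simp only [CC, ZZ, mem_setOf_eq, not_frequently, not_le, eventually_atTop, ge_iff_le]

theorem isClosed_CC (a : Λ) : IsClosed (CC f (f a)) := by
  rw [← isOpen_compl_iff]
  have : (CC f (f a))ᶜ = ⋃ m, ZZ f a m := by
    ext x; simp only [mem_compl_iff, not_mem_CC, mem_iUnion]
  rw [this]
  exact isOpen_iUnion fun m => (isClopen_ZZ a m).isOpen

theorem CC_mono {g h : ∀ n, K n} (hgh : ∀ᶠ n in atTop, g n ≤ h n) : CC f g ⊆ CC f h := by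
  intro x hx
  exact (hx.and_eventually hgh).mono fun n hn => hn.1.trans (WithTop.coe_le_coe.2 hn.2)

/-- Every neighbourhood contains the points sharing a long initial segment and lying above a
fixed function afterwards. -/
theorem nhds_sub [∀ n, Nonempty (K n)] (d : Sp f) (N : Set (Sp f)) (hN : N ∈ 𝓝 d) :
    ∃ (r0 : ℕ) (g : ∀ n, K n), ∀ r, r0 ≤ r → ∀ x : Sp f, (∀ i, i < r → x.1 i = d.1 i) →
      (∀ n, r ≤ n → (g n : WithTop (K n)) < x.1 n) → x ∈ N := by
  let Q : Filter (Sp f) :=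
    { sets := {N | ∃ (r0 : ℕ) (g : ∀ n, K n), ∀ r, r0 ≤ r → ∀ x : Sp f,
        (∀ i, i < r → x.1 i = d.1 i) → (∀ n, r ≤ n → (g n : WithTop (K n)) < x.1 n) → x ∈ N}
      univ_sets := ⟨0, fun n => Classical.arbitrary _, fun _ _ _ _ _ => mem_univ _⟩
      sets_of_superset := by
        rintro A B ⟨r0, g, h⟩ hAB
        exact ⟨r0, g, fun r hr x h1 h2 => hAB (h r hr x h1 h2)⟩
      inter_sets := by
        rintro A B ⟨r0, g, h⟩ ⟨r1, g1, h'⟩
        refine ⟨max r0 r1, fun n => max (g n) (g1 n), fun r hr x h1 h2 => ⟨?_, ?_⟩⟩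
        · exact h r ((le_max_left _ _).trans hr) x h1 fun n hn =>
            (WithTop.coe_le_coe.2 (le_max_left _ _)).trans_lt (h2 n hn)
        · exact h' r ((le_max_right _ _).trans hr) x h1 fun n hn =>
            (WithTop.coe_le_coe.2 (le_max_right _ _)).trans_lt (h2 n hn) }
  have hQ : Q ≤ 𝓝 d := by
    rw [le_nhds_iff']
    rintro (⟨n, c⟩ | ⟨a, m⟩)
    · refine ⟨n + 1, fun n => Classical.arbitrary _, fun r hr x h1 _ => ?_⟩
      simp only [GG, LL, mem_setOf_eq, h1 n hr]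
    · by_cases hd : d ∈ ZZ f a m
      · refine ⟨0, f a, fun r _ x h1 h2 => ?_⟩
        refine ⟨fun _ => hd, fun _ n hn => ?_⟩
        rcases lt_or_ge n r with h | h
        · rw [h1 n h]; exact hd n hn
        · exact h2 n h
      · have hd' := hd
        simp only [ZZ, mem_setOf_eq, not_forall] at hd'
        obtain ⟨n, hn, hlt⟩ := hd'
        refine ⟨n + 1, f a, fun r hr x h1 _ => ?_⟩
        refine ⟨fun hx => ?_, fun h => absurd h hd⟩
        exact absurd ((h1 n hr) ▸ hx n hn) hlt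
  exact hQ hN

/-- Discrete subsets are bounded. -/
theorem discrete_bounded [∀ n, Nonempty (K n)]
    (hb : ∀ n (g : ℕ × (∀ i : Fin n, WithTop (K i)) → K n), ∃ b, ∀ i, g i ≤ b)
    (D : Set (Sp f)) (hD : IsDiscrete D) : ∃ h : ∀ n, K n, D ⊆ CC f h := by
  classical
  have h1 : ∀ d : Sp f, ∃ (r0 : ℕ) (g : ∀ n, K n), d ∈ D → ∀ r, r0 ≤ r → ∀ x ∈ D,
      (∀ i, i < r → x.1 i = d.1 i) → ∃ n, r ≤ n ∧ x.1 n ≤ (g n : WithTop (K n)) := by
    intro d
    by_cases hd : d ∈ D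
    swap
    · exact ⟨0, fun n => Classical.arbitrary _, fun h => absurd h hd⟩
    obtain ⟨N, hN, hND⟩ : ∃ N ∈ 𝓝 d, ∀ x ∈ N, x ∈ D → x = d := by
      obtain ⟨U, hU, hUD⟩ := (isDiscrete_iff_forall_exists_isOpen.1 hD) d hd
      refine ⟨U, hU.mem_nhds ?_, fun x hx hxD => ?_⟩
      · have : d ∈ U ∩ D := by rw [hUD]; rfl
        exact this.1
      · have : x ∈ U ∩ D := ⟨hx, hxD⟩
        rwa [hUD] at this
    obtain ⟨r0, g, hg⟩ := nhds_sub d N hN
    refine ⟨r0, fun n => max (g n) ((d.1 n).untopD (g n)), fun _ r hr x hx hxd => ?_⟩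
    by_contra hcon
    push Not at hcon
    have hxN := hg r hr x hxd fun n hn =>
      (WithTop.coe_le_coe.2 (le_max_left _ _)).trans_lt (hcon n hn)
    obtain rfl := hND x hxN hx
    obtain ⟨n, hn, hne⟩ := (frequently_atTop.1 x.2) r
    obtain ⟨c, hc⟩ := WithTop.ne_top_iff_exists.1 hne
    have := hcon n hn
    rw [← hc, WithTop.untopD_coe] at this
    exact absurd (WithTop.coe_lt_coe.1 this) (le_max_right _ _).not_gt
  choose r0 g hg using h1
  have h2 : ∀ A : Set (Sp f), ∃ g' : ∀ n, K n, A.Nonempty → ∃ d ∈ A, g' = g d := by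
    intro A
    by_cases hA : A.Nonempty
    · exact ⟨g hA.some, fun _ => ⟨_, hA.some_mem, rfl⟩⟩
    · exact ⟨fun n => Classical.arbitrary _, fun h => absurd h hA⟩
  choose c hc using h2
  choose h hh using fun n => hb n fun p =>
    c {d | d ∈ D ∧ r0 d ≤ p.1 ∧ ∀ i : Fin n, i.1 < p.1 → d.1 i = p.2 i} n
  refine ⟨h, fun x hx => frequently_atTop.2 fun r => ?_⟩
  set r' := max r (r0 x)
  obtain ⟨d, hd, hcd⟩ := hc {d | d ∈ D ∧ r0 d ≤ r' ∧ ∀ i, i < r' → d.1 i = x.1 i}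
    ⟨x, hx, le_max_right _ _, fun _ _ => rfl⟩
  obtain ⟨n, hn, hle⟩ := hg d hd.1 r' hd.2.1 x hx fun i hi => (hd.2.2 i hi).symm
  refine ⟨n, (le_max_left _ _).trans hn, hle.trans (WithTop.coe_le_coe.2 ?_)⟩
  have h3 := hh n (r', fun i => x.1 i)
  have h4 : {d : Sp f | d ∈ D ∧ r0 d ≤ r' ∧ ∀ i : Fin n, i.1 < r' → d.1 i = x.1 i} =
      {d | d ∈ D ∧ r0 d ≤ r' ∧ ∀ i, i < r' → d.1 i = x.1 i} := by
    ext z
    refine and_congr_right fun _ => and_congr_right fun _ => ⟨fun H i hi => ?_, fun H i hi => ?_⟩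
    · exact H ⟨i, hi.trans_le hn⟩ hi
    · exact H i hi
  simp only [h4, hcd] at h3
  exact h3

/-- The space is not weakly Lindelof. -/
theorem not_weak (hb : ∀ n (g : ℕ → K n), ∃ b, ∀ i, g i < b)
    (hcof : ∀ h : ∀ n, K n, ∃ a, ∀ᶠ n in atTop, h n ≤ f a n) [∀ n, Nonempty (K n)] :
    ∃ 𝒱 : Set (Set (Sp f)), (∀ V ∈ 𝒱, IsOpen V) ∧ ⋃₀ 𝒱 = univ ∧
      ∀ 𝒲 : Set (Set (Sp f)), 𝒲 ⊆ 𝒱 → 𝒲.Countable → ¬ Dense (⋃₀ 𝒲) := by
  classical
  refine ⟨range fun p : Σ n, K n => LL f p.1 p.2, ?_, ?_, fun 𝒲 hW hc hd => ?_⟩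
  · rintro _ ⟨p, rfl⟩
    exact (isClopen_LL p.1 p.2).isOpen
  · refine eq_univ_of_forall fun x => ?_
    obtain ⟨n, hn⟩ := x.2.exists
    obtain ⟨c, hc⟩ := WithTop.ne_top_iff_exists.1 hn
    exact ⟨_, ⟨⟨n, c⟩, rfl⟩, hc.ge⟩
  obtain ⟨h, hh⟩ : ∃ h : ∀ n, K n, ∀ W ∈ 𝒲, ∀ x ∈ W, ∃ n, x.1 n ≤ (h n : WithTop (K n)) := by
    rcases 𝒲.eq_empty_or_nonempty with rfl | hne
    · exact ⟨fun n => Classical.arbitrary _, fun W hW => absurd hW (notMem_empty _)⟩
    obtain ⟨w, rfl⟩ := hc.exists_eq_range hne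
    choose p hp using fun i => hW (mem_range_self (f := w) i)
    choose h hh using fun n => hb n fun i =>
      if e : (p i).1 = n then e ▸ (p i).2 else Classical.arbitrary _
    refine ⟨h, ?_⟩
    rintro _ ⟨i, rfl⟩ x hx
    rw [← hp i] at hx
    have := hh (p i).1 i
    rw [dif_pos rfl] at this
    exact ⟨(p i).1, le_trans hx (WithTop.coe_le_coe.2 this.le)⟩
  obtain ⟨a, ha⟩ := hcof h
  obtain ⟨m, hm⟩ := eventually_atTop.1 ha
  have hopen : IsOpen (ZZ f a m ∩ ⋂ n ∈ Finset.range m, (LL f n (h n))ᶜ) :=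
    (isClopen_ZZ a m).isOpen.inter
      (isOpen_biInter_finset fun n _ => (isClopen_LL n (h n)).compl.isOpen)
  choose b hb' using fun n => hb n fun _ => max (h n) (f a n)
  have hne : (ZZ f a m ∩ ⋂ n ∈ Finset.range m, (LL f n (h n))ᶜ).Nonempty := by
    refine ⟨⟨fun n => (b n : WithTop (K n)), Frequently.of_forall fun n => WithTop.coe_ne_top⟩,
      fun n _ => WithTop.coe_lt_coe.2 ((le_max_right _ _).trans_lt (hb' n 0)), ?_⟩
    simp only [mem_iInter, mem_compl_iff, LL, mem_setOf_eq, not_le]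
    exact fun n _ => WithTop.coe_lt_coe.2 ((le_max_left _ _).trans_lt (hb' n 0))
  obtain ⟨x, ⟨hx1, hx2⟩, W, hW', hxW⟩ := hd.inter_open_nonempty _ hopen hne
  obtain ⟨n, hn⟩ := hh W hW' x hxW
  rcases lt_or_ge n m with hnm | hnm
  · simp only [mem_iInter, mem_compl_iff, LL, mem_setOf_eq] at hx2
    exact hx2 n (Finset.mem_range.2 hnm) hn
  · exact absurd (hn.trans (WithTop.coe_le_coe.2 (hm n hnm))) (hx1 n hnm).not_ge

end Pool.Agent.H105Z.DL
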