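import Mathlib
import Pool.Agent.H105Z.DL.Space

/-! Each level of the space is Lindelof. -/

set_option autoImplicit false

namespace Pool.Agent.H105Z.DL

open Filter Topology Set

theorem exists_closed_family {P : Type} (p0 : P) (T : P → P → Set P)
    (hT : ∀ a b, (T a b).Countable) :
    ∃ S : Set P, S.Countable ∧ p0 ∈ S ∧ ∀ a ∈ S, ∀ b ∈ S, T a b ⊆ S := by
  let s : ℕ → Set P := fun n => Nat.rec {p0} (fun _ A => A ∪ ⋃ a ∈ A, ⋃ b ∈ A, T a b) n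
  have hs : ∀ n, s (n + 1) = s n ∪ ⋃ a ∈ s n, ⋃ b ∈ s n, T a b := fun _ => rfl
  have hc : ∀ n, (s n).Countable := by
    intro n
    induction n with
    | zero => exact countable_singleton p0
    | succ n ih =>
      rw [hs]
      exact ih.union (ih.biUnion fun a _ => ih.biUnion fun b _ => hT a b)
  have hm : Monotone s := monotone_nat_of_le_succ fun n => by rw [hs]; exact subset_union_left
  refine ⟨⋃ n, s n, countable_iUnion hc, mem_iUnion.2 ⟨0, rfl⟩, fun a ha b hb x hx => ?_⟩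
  obtain ⟨i, hi⟩ := mem_iUnion.1 ha
  obtain ⟨j, hj⟩ := mem_iUnion.1 hb
  refine mem_iUnion.2 ⟨max i j + 1, ?_⟩
  rw [hs]
  refine Or.inr ?_
  simp only [mem_iUnion]
  exact ⟨a, hm (le_max_left i j) hi, b, hm (le_max_right i j) hj, hx⟩

theorem exists_ultra {X : Type} (F : Filter X) (S : Set (Set X))
    (hS : ∀ E ∈ S, ∃ᶠ x in F, x ∈ E) (E0 : Set X) (h0 : E0 ∈ S) (A : ℕ → Set X → Prop)
    (hA : ∀ j, ∀ E ∈ S, ∃ E' ∈ S, E' ⊆ E ∧ A j E') :
    ∃ V : Ultrafilter X, (V : Filter X) ≤ F ∧ E0 ∈ V ∧ ∀ j, ∃ E' ∈ V, A j E' := by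
  have hA' : ∀ j (E : S), ∃ E' : S, E'.1 ⊆ E.1 ∧ A j E'.1 := by
    intro j E
    obtain ⟨E', h1, h2⟩ := hA j E.1 E.2
    exact ⟨⟨E', h1⟩, h2⟩
  choose nx hnx using hA'
  let s : ℕ → S := fun n => Nat.rec ⟨E0, h0⟩ (fun j E => nx j E) n
  have hs : ∀ n, s (n + 1) = nx n (s n) := fun _ => rfl
  have hanti : Antitone fun n => (s n).1 :=
    antitone_nat_of_succ_le fun n => by rw [hs]; exact (hnx n (s n)).1
  have hne : ∀ n, (F ⊓ 𝓟 (s n).1).NeBot := fun n =>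
    frequently_mem_iff_neBot.1 (hS _ (s n).2)
  have hanti' : Antitone fun n => F ⊓ 𝓟 (s n).1 := fun i j hij =>
    inf_le_inf_left _ (principal_mono.2 (hanti hij))
  haveI : (⨅ n, F ⊓ 𝓟 (s n).1).NeBot := iInf_neBot_of_directed' hanti'.directed_ge hne
  have hle := Ultrafilter.of_le (⨅ n, F ⊓ 𝓟 (s n).1)
  have hmem : ∀ n, (s n).1 ∈ Ultrafilter.of (⨅ n, F ⊓ 𝓟 (s n).1) := fun n =>
    le_principal_iff.1 (hle.trans ((iInf_le _ n).trans inf_le_right))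
  exact ⟨_, hle.trans ((iInf_le _ 0).trans inf_le_left), hmem 0,
    fun j => ⟨_, hmem (j + 1), (hnx j (s j)).2⟩⟩

theorem freq_iUnion {X : Type} {F : Filter X} [CountableInterFilter F] {p : ℕ → X → Prop}
    (h : ∃ᶠ x in F, ∃ n, p n x) : ∃ n, ∃ᶠ x in F, p n x := by
  by_contra hc
  simp only [not_exists, not_frequently] at hc
  exact h ((eventually_countable_forall.2 hc).mono fun x hx => not_exists.2 hx)

variable {K : ℕ → Type} [∀ n, LinearOrder (K n)] [∀ n, WellFoundedLT (K n)] {Λ : Type}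
  [LinearOrder Λ] {f : Λ → ∀ n, K n}

theorem exists_least {n : ℕ} (p : WithTop (K n) → Prop) (hp : p ⊤) :
    ∃ c, p c ∧ ∀ c', p c' → c ≤ c' :=
  ⟨wellFounded_lt.min {c | p c} ⟨⊤, hp⟩, wellFounded_lt.min_mem {c | p c} ⟨⊤, hp⟩,
    fun _ h => wellFounded_lt.min_le h⟩

theorem ultra_limit (hmono : ∀ a b, a ≤ b → ∀ᶠ n in atTop, f a n ≤ f b n)
    (V : Ultrafilter (Sp f)) (δ : Λ) (h1 : ∃ᶠ n in atTop, LL f n (f δ n) ∈ V)
    (h2 : ∀ b, b < δ → ∃ m, ZZ f b m ∈ V) : ∃ y ∈ CC f (f δ), (V : Filter (Sp f)) ≤ 𝓝 y := by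
  have h0 : ∀ n, ∃ c : WithTop (K n), ∀ c', c ≤ c' ↔ LL f n c' ∈ V := by
    intro n
    obtain ⟨c, hc, hc'⟩ := exists_least (fun c => LL f n c ∈ V)
      (univ_mem' fun x => (le_top : x.1 n ≤ ⊤))
    exact ⟨c, fun c' => ⟨fun h => mem_of_superset hc fun x hx => le_trans hx h, hc' c'⟩⟩
  choose y hy using h0
  have hyC : ∃ᶠ n in atTop, y n ≤ (f δ n : WithTop (K n)) := h1.mono fun n hn => (hy n _).2 hn
  have hyX : ∃ᶠ n in atTop, y n ≠ ⊤ :=
    hyC.mono fun n hn => ne_top_of_le_ne_top WithTop.coe_ne_top hn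
  have hgt : ∀ n (c : WithTop (K n)), c < y n → ∀ᶠ x in (V : Filter (Sp f)), c < x.1 n := by
    intro n c hc
    have : LL f n c ∉ V := fun h => hc.not_ge ((hy n c).2 h)
    exact mem_of_superset (Ultrafilter.compl_mem_iff_notMem.2 this) fun x hx =>
      not_le.1 (show ¬ x.1 n ≤ c from hx)
  refine ⟨⟨y, hyX⟩, hyC, ?_⟩
  rw [le_nhds_iff']
  rintro (⟨n, c⟩ | ⟨a, m⟩)
  · rcases le_or_gt (y n) c with h | h
    · exact mem_of_superset ((hy n c).1 h) fun x hx => ⟨fun _ => h, fun _ => hx⟩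
    · exact (hgt n c h).mono fun x hx => ⟨fun h' => absurd h' hx.not_ge, fun h' => absurd h' h.not_ge⟩
  · by_cases hz : (⟨y, hyX⟩ : Sp f) ∈ ZZ f a m
    · have haδ : a < δ := by
        by_contra hge
        exact not_mem_CC.2 ⟨m, hz⟩ (CC_mono (hmono δ a (not_lt.1 hge)) hyC)
      obtain ⟨m', hm'⟩ := h2 a haδ
      have h3 : ∀ᶠ x in (V : Filter (Sp f)), ∀ n ∈ Finset.range m', m ≤ n →
          (f a n : WithTop (K n)) < x.1 n := by
        rw [eventually_all_finset]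
        intro n _
        by_cases hn : m ≤ n
        · exact (hgt n _ (hz n hn)).mono fun x hx _ => hx
        · exact Eventually.of_forall fun x h => absurd h hn
      refine (h3.and hm').mono fun x hx => ⟨fun _ => hz, fun _ n hn => ?_⟩
      rcases lt_or_ge n m' with h | h
      · exact hx.1 n (Finset.mem_range.2 h) hn
      · exact hx.2 n h
    · have hz' : ¬ ∀ n, m ≤ n → (f a n : WithTop (K n)) < y n := hz
      simp only [not_forall, not_lt] at hz'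
      obtain ⟨n, hn, hle⟩ := hz'
      exact mem_of_superset ((hy n _).1 hle) fun x hx =>
        ⟨fun h => absurd hx (h n hn).not_ge, fun h => absurd h hz⟩

theorem isLindelof_CC [WellFoundedLT Λ] (hmono : ∀ a b, a ≤ b → ∀ᶠ n in atTop, f a n ≤ f b n)
    (α : Λ) : IsLindelof (CC f (f α)) := by
  induction α using WellFoundedLT.induction with
  | ind α ih =>
  intro F hF hF' hle
  have hC : CC f (f α) ∈ F := le_principal_iff.1 hle
  by_cases hpos : ∃ b, b < α ∧ ∃ᶠ x in F, x ∈ CC f (f b)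
  · obtain ⟨b, hb, hfr⟩ := hpos
    haveI := frequently_mem_iff_neBot.1 hfr
    obtain ⟨x, hx, hcl⟩ := ih b hb (f := F ⊓ 𝓟 (CC f (f b))) inf_le_right
    exact ⟨x, CC_mono (hmono b α hb.le) hx, hcl.mono inf_le_left⟩
  have hnull : ∀ b, b < α → ∀ E : Set (Sp f), (∃ᶠ x in F, x ∈ E) →
      ∃ m, ∃ᶠ x in F, x ∈ E ∩ ZZ f b m := by
    intro b hb E hE
    have : ∀ᶠ x in F, x ∉ CC f (f b) := not_frequently.1 fun h => hpos ⟨b, hb, h⟩
    refine freq_iUnion ((hE.and_eventually this).mono fun x hx => ?_)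
    obtain ⟨m, hm⟩ := not_mem_CC.1 hx.2
    exact ⟨m, hx.1, hm⟩
  suffices H : ∃ (V : Ultrafilter (Sp f)) (δ : Λ), (V : Filter (Sp f)) ≤ F ∧ δ ≤ α ∧
      (∃ᶠ n in atTop, LL f n (f δ n) ∈ V) ∧ ∀ b, b < δ → ∃ m, ZZ f b m ∈ V by
    obtain ⟨V, δ, hV, hδ, h1, h2⟩ := H
    obtain ⟨y, hy, hyV⟩ := ultra_limit hmono V δ h1 h2
    exact ⟨y, CC_mono (hmono δ α hδ) hy, (ClusterPt.of_le_nhds hyV).mono hV⟩
  have hg : ∀ (E : {E : Set (Sp f) // ∃ᶠ x in F, x ∈ E}) (n : ℕ), ∃ c : WithTop (K n),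
      (∃ᶠ x in F, x ∈ E.1 ∩ LL f n c) ∧ ∀ c', (∃ᶠ x in F, x ∈ E.1 ∩ LL f n c') → c ≤ c' :=
    fun E n => exists_least _ (E.2.mono fun x hx => ⟨hx, (le_top : x.1 n ≤ ⊤)⟩)
  choose g hg1 hg2 using hg
  by_cases hcase : ∃ E, ∀ b, b < α → ∀ᶠ n in atTop, (f b n : WithTop (K n)) < g E n
  · obtain ⟨E, hE⟩ := hcase
    obtain ⟨V, hV, hEV, hA⟩ := exists_ultra F {E | ∃ᶠ x in F, x ∈ E} (fun _ h => h) E.1 E.2
      (fun j E' => ∃ n, j ≤ n ∧ E' ⊆ LL f n (f α n)) (by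
        intro j E' hE'
        have : ∃ n, ∃ᶠ x in F, j ≤ n ∧ x ∈ E' ∩ LL f n (f α n) := by
          refine freq_iUnion ((Frequently.and_eventually hE' hC).mono fun x hx => ?_)
          obtain ⟨n, hn, hle⟩ := frequently_atTop.1 hx.2 j
          exact ⟨n, hn, hx.1, hle⟩
        obtain ⟨n, hn⟩ := this
        exact ⟨_, hn.mono fun x hx => hx.2, inter_subset_left, n, hn.exists.choose_spec.1,
          inter_subset_right⟩)
    refine ⟨V, α, hV, le_rfl, frequently_atTop.2 fun j => ?_, fun b hb => ?_⟩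
    · obtain ⟨E', hE', n, hn, hsub⟩ := hA j
      exact ⟨n, hn, mem_of_superset hE' hsub⟩
    · obtain ⟨m, hm⟩ := eventually_atTop.1 (hE b hb)
      have : ∀ᶠ x in F, ∀ n, m ≤ n → x ∉ E.1 ∩ LL f n (f b n) := by
        rw [eventually_countable_forall]
        intro n
        by_cases hn : m ≤ n
        · have : ∀ᶠ x in F, x ∉ E.1 ∩ LL f n (f b n) :=
            not_frequently.1 fun h => (hm n hn).not_ge (hg2 E n _ h)
          exact this.mono fun x hx _ => hx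
        · exact Eventually.of_forall fun x h => absurd h hn
      refine ⟨m, mem_of_superset (inter_mem hEV (hV this)) fun x hx n hn => ?_⟩
      exact not_le.1 fun h => hx.2 n hn ⟨hx.1, h⟩
  have hρ : ∀ E, ∃ b, b < α ∧ ∃ᶠ n in atTop, g E n ≤ (f b n : WithTop (K n)) := by
    intro E
    by_contra hc
    refine hcase ⟨E, fun b hb => ?_⟩
    have := not_frequently.1 fun h => hc ⟨b, hb, h⟩
    exact this.mono fun n hn => not_le.1 hn
  choose ρ hρ1 hρ2 using hρ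
  obtain ⟨S, hSc, hS0, hS⟩ := exists_closed_family
    (⟨univ, Frequently.of_forall fun _ => mem_univ _⟩ : {E : Set (Sp f) // ∃ᶠ x in F, x ∈ E})
    (fun a b => Subtype.val ⁻¹' ((range fun n => a.1 ∩ LL f n (g a n)) ∪
      range fun m => a.1 ∩ ZZ f (ρ b) m))
    (fun a b => ((countable_range _).union (countable_range _)).preimage Subtype.val_injective)
  obtain ⟨w, hw⟩ := hSc.exists_eq_range ⟨_, hS0⟩
  have hne : {δ | ∀ E ∈ S, ρ E ≤ δ}.Nonempty := ⟨α, fun E _ => (hρ1 E).le⟩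
  set δ := wellFounded_lt.min _ hne with hδ
  have hδ1 : ∀ E ∈ S, ρ E ≤ δ := wellFounded_lt.min_mem _ hne
  have hδ2 : ∀ b, (∀ E ∈ S, ρ E ≤ b) → δ ≤ b := fun b hb =>
    wellFounded_lt.min_le (s := {δ | ∀ E ∈ S, ρ E ≤ δ}) hb
  obtain ⟨V, hV, -, hA⟩ := exists_ultra F (Subtype.val '' S) (by rintro _ ⟨E, -, rfl⟩; exact E.2)
    univ ⟨_, hS0, rfl⟩
    (fun j E' => (∃ n, j ≤ n ∧ E' ⊆ LL f n (f δ n)) ∧ ∃ m, E' ⊆ ZZ f (ρ (w j)) m) (by
      rintro j _ ⟨E, hE, rfl⟩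
      obtain ⟨n, hn, h1, h2⟩ := frequently_atTop.1
        ((hρ2 E).and_eventually (hmono _ _ (hδ1 E hE))) j
      have hE1 : (⟨_, hg1 E n⟩ : {E : Set (Sp f) // ∃ᶠ x in F, x ∈ E}) ∈ S :=
        hS E hE E hE (Or.inl ⟨n, rfl⟩)
      obtain ⟨m, hm⟩ := hnull _ (hρ1 (w j)) _ (hg1 E n)
      have hE2 : (⟨_, hm⟩ : {E : Set (Sp f) // ∃ᶠ x in F, x ∈ E}) ∈ S :=
        hS _ hE1 (w j) (hw ▸ mem_range_self j) (Or.inr ⟨m, rfl⟩)
      refine ⟨_, ⟨_, hE2, rfl⟩, fun x hx => hx.1.1, ⟨n, hn, fun x hx => ?_⟩, m, fun x hx => hx.2⟩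
      exact le_trans hx.1.2 (h1.trans (WithTop.coe_le_coe.2 h2)))
  refine ⟨V, δ, hV, hδ2 α fun E _ => (hρ1 E).le, frequently_atTop.2 fun j => ?_, fun b hb => ?_⟩
  · obtain ⟨E', hE', ⟨n, hn, hsub⟩, -⟩ := hA j
    exact ⟨n, hn, mem_of_superset hE' hsub⟩
  · obtain ⟨E, hE, hbE⟩ : ∃ E ∈ S, b ≤ ρ E := by
      by_contra hc
      push Not at hc
      exact hb.not_ge (hδ2 b fun E hE => (hc E hE).le)
    obtain ⟨j, rfl⟩ : E ∈ range w := hw ▸ hE
    obtain ⟨E', hE', -, m, hsub⟩ := hA j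
    obtain ⟨m', hm'⟩ := eventually_atTop.1 (hmono _ _ hbE)
    refine ⟨max m m', mem_of_superset hE' fun x hx n hn => ?_⟩
    exact (WithTop.coe_le_coe.2 (hm' n ((le_max_right _ _).trans hn))).trans_lt
      (hsub hx n ((le_max_left _ _).trans hn))

end Pool.Agent.H105Z.DL
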