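import Mathlib

/-! Existence of a well-ordered, mod-finite monotone, cofinal family in a product of
well-orders in which families of size continuum are strictly bounded. -/

set_option autoImplicit false

namespace Pool.Agent.H105Z.DL

open Filter

theorem exists_records {Q P : Type} [LinearOrder Q] [WellFoundedLT Q] (u : Q → P)
    (R : P → P → Prop) :
    ∃ S : Q → Prop, ∀ q, S q ↔ ∀ q', q' < q → S q' → R (u q') (u q) := by
  refine ⟨(wellFounded_lt (α := Q)).fix (C := fun _ => Prop)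
    (fun q IH => ∀ q' (h : q' < q), IH q' h → R (u q') (u q)), fun q => ?_⟩
  rw [WellFounded.fix_eq]

theorem exists_scale (K : ℕ → Type) [∀ n, LinearOrder (K n)]
    (hb : ∀ n (ι : Type), Cardinal.mk ι ≤ Cardinal.continuum → ∀ g : ι → K n, ∃ b, ∀ i, g i < b) :
    ∃ φ : ℕ → ℕ, StrictMono φ ∧ ∃ (Λ : Type) (_ : LinearOrder Λ) (_ : WellFoundedLT Λ)
      (f : Λ → ∀ n, K (φ n)), (∀ a b, a ≤ b → ∀ᶠ n in atTop, f a n ≤ f b n) ∧
      ∀ h : ∀ n, K (φ n), ∃ a, ∀ᶠ n in atTop, h n ≤ f a n := by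
  classical
  obtain ⟨e⟩ : Nonempty ((Cardinal.mk (∀ n, K n)).ord.ToType ≃ ∀ n, K n) := by
    rw [← Cardinal.eq, Cardinal.mk_ord_toType]
  obtain ⟨S, hS⟩ := exists_records e (fun a b : ∀ n, K n => ∀ᶠ n in atTop, a n ≤ b n)
  have hmono : ∀ a b : {q // S q}, a ≤ b → ∀ᶠ n in atTop, e a.1 n ≤ e b.1 n := by
    intro a b hab
    rcases hab.eq_or_lt with rfl | hlt
    · exact Eventually.of_forall fun _ => le_rfl
    · exact (hS b.1).1 b.2 a.1 hlt a.2
  have hsucc : ∀ n (a : K n), ∃ b, a < b := by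
    intro n a
    obtain ⟨b, hb'⟩ := hb n Unit (by simpa using Cardinal.nat_lt_continuum 1 |>.le) (fun _ => a)
    exact ⟨b, hb' ()⟩
  choose sc hsc using hsucc
  have hunb : ∀ h : ∀ n, K n, ¬ ∀ a : {q // S q}, ∀ᶠ n in atTop, e a.1 n ≤ h n := by
    intro h hh
    have h1 : S (e.symm fun n => sc n (h n)) := by
      rw [hS]
      intro q' _ hq'
      rw [Equiv.apply_symm_apply]
      exact (hh ⟨q', hq'⟩).mono fun n hn => hn.trans (hsc n _).le
    have h2 := hh ⟨_, h1⟩
    simp only [Equiv.apply_symm_apply] at h2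
    obtain ⟨n, hn⟩ := h2.exists
    exact absurd hn (hsc n _).not_ge
  by_contra hcon
  have key : ∀ A : {A : Set ℕ // A.Infinite}, ∃ h : ∀ n, K (Nat.nth (· ∈ A.1) n),
      ∀ a : {q // S q}, ∃ n, e a.1 (Nat.nth (· ∈ A.1) n) < h n := by
    intro A
    by_contra hA
    push Not at hA
    apply hcon
    have hsm : StrictMono (Nat.nth (· ∈ A.1)) := Nat.nth_strictMono A.2
    refine ⟨Nat.nth (· ∈ A.1), hsm, {q // S q}, inferInstance, inferInstance,
      fun a n => e a.1 _, fun a b hab => hsm.tendsto_atTop.eventually (hmono a b hab), fun h => ?_⟩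
    obtain ⟨a, ha⟩ := hA h
    exact ⟨a, Eventually.of_forall ha⟩
  choose hA hhA using key
  have hcard : ∀ k, Cardinal.mk {p : {A : Set ℕ // A.Infinite} × ℕ //
      Nat.nth (· ∈ p.1.1) p.2 = k} ≤ Cardinal.continuum := by
    intro k
    refine (Cardinal.mk_subtype_le _).trans ?_
    rw [Cardinal.mk_prod, Cardinal.lift_id, Cardinal.lift_id, Cardinal.mk_nat]
    calc _ ≤ Cardinal.continuum * Cardinal.aleph0 := by
          gcongr
          exact (Cardinal.mk_subtype_le _).trans (by simp)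
      _ = _ := Cardinal.continuum_mul_aleph0
  choose h hh using fun k => hb k _ (hcard k) (fun p => p.2 ▸ hA p.1.1 p.1.2)
  apply hunb h
  intro a
  by_contra hne
  have hinf : {n | h n < e a.1 n}.Infinite := by
    rw [← Nat.cofinite_eq_atTop, not_eventually] at hne
    simp only [not_le] at hne
    exact Filter.frequently_cofinite_iff_infinite.1 hne
  obtain ⟨n, hn⟩ := hhA ⟨_, hinf⟩ a
  have h1 := hh _ ⟨(⟨_, hinf⟩, n), rfl⟩
  have h2 : Nat.nth (· ∈ {n | h n < e a.1 n}) n ∈ {n | h n < e a.1 n} :=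
    Nat.nth_mem_of_infinite hinf n
  exact lt_irrefl _ ((hn.trans h1).trans h2)

end Pool.Agent.H105Z.DL
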