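import Mathlib
import Pool.Agent.H105Z.DL.Scale
import Pool.Agent.H105Z.DL.Lind

/-! Assembly of the example. -/

set_option autoImplicit false

namespace Pool.Agent.H105Z.DL

open Filter Topology Set

theorem bdd_of_lt {c : Cardinal.{0}} (hc : c.IsRegular) {ι : Type} (hι : Cardinal.mk ι < c)
    (g : ι → c.ord.ToType) : ∃ b, ∀ i, g i < b := by
  have : ¬ IsCofinal (range g) := fun h => by
    have h1 := Order.cof_le h
    rw [Ordinal.cof_toType, hc.cof_ord] at h1
    exact (h1.trans Cardinal.mk_range_le).not_gt hι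
  obtain ⟨b, hb⟩ := not_isCofinal_iff.1 this
  exact ⟨b, fun i => hb _ (mem_range_self i)⟩

/-- The finite successors of the continuum. -/
noncomputable def kap : ℕ → Cardinal.{0}
  | 0 => Order.succ Cardinal.continuum
  | n + 1 => Order.succ (kap n)

theorem kap_strictMono : StrictMono kap := strictMono_nat_of_lt_succ fun n => Order.lt_succ (kap n)

theorem cont_lt_kap (n : ℕ) : Cardinal.continuum < kap n :=
  (Order.lt_succ Cardinal.continuum).trans_le (kap_strictMono.monotone (Nat.zero_le n))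

theorem kap_regular : ∀ n, (kap n).IsRegular
  | 0 => Cardinal.isRegular_succ Cardinal.aleph0_le_continuum
  | n + 1 => Cardinal.isRegular_succ (Cardinal.aleph0_le_continuum.trans (cont_lt_kap n).le)

theorem mk_seg_lt (κ : ℕ → Cardinal.{0}) (hm : StrictMono κ) (h0 : ∀ n, Cardinal.aleph0 < κ n)
    (n : ℕ) : Cardinal.mk (ℕ × ∀ i : Fin n, WithTop (κ i).ord.ToType) < κ n := by
  obtain ⟨c, hc0, hcn, hc⟩ : ∃ c, Cardinal.aleph0 ≤ c ∧ c < κ n ∧ ∀ i, i < n → κ i ≤ c := by
    cases n with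
    | zero => exact ⟨_, le_rfl, h0 0, fun i hi => absurd hi (Nat.not_lt_zero i)⟩
    | succ n => exact ⟨κ n, (h0 n).le, hm (Nat.lt_succ_self n),
        fun i hi => hm.monotone (Nat.lt_succ_iff.1 hi)⟩
  refine lt_of_le_of_lt ?_ hcn
  rw [Cardinal.mk_prod, Cardinal.lift_id, Cardinal.lift_id, Cardinal.mk_nat, Cardinal.mk_pi]
  have h1 : Cardinal.prod (fun i : Fin n => Cardinal.mk (WithTop (κ i).ord.ToType)) ≤ c := by
    refine (Cardinal.prod_le_prod _ (fun _ => c) fun i => ?_).trans ?_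
    · change Cardinal.mk (Option (κ i).ord.ToType) ≤ c
      rw [Cardinal.mk_option, Cardinal.mk_ord_toType, Cardinal.add_one_eq (h0 i).le]
      exact hc i i.2
    · rw [Cardinal.prod_const', Cardinal.mk_fin]
      exact Cardinal.power_nat_le hc0
  exact (mul_le_mul' hc0 h1).trans (Cardinal.mul_eq_self hc0).le

theorem main : ∃ (X : Type) (_ : TopologicalSpace X), T35Space X ∧
    (∀ D : Set X, IsDiscrete D → IsLindelof (closure D)) ∧
    ∃ 𝒱 : Set (Set X), (∀ V ∈ 𝒱, IsOpen V) ∧ ⋃₀ 𝒱 = univ ∧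
      ∀ 𝒲 : Set (Set X), 𝒲 ⊆ 𝒱 → 𝒲.Countable → ¬ Dense (⋃₀ 𝒲) := by
  obtain ⟨φ, hφ, Λ, _, _, f, hmono, hcof⟩ := exists_scale (fun n => (kap n).ord.ToType)
    fun n ι hι g => bdd_of_lt (kap_regular n) (hι.trans_lt (cont_lt_kap n)) g
  have h0 : ∀ n, Cardinal.aleph0 < kap (φ n) := fun n =>
    Cardinal.aleph0_le_continuum.trans_lt (cont_lt_kap _)
  have hb : ∀ n (g : ℕ → (kap (φ n)).ord.ToType), ∃ b, ∀ i, g i < b := fun n g =>
    bdd_of_lt (kap_regular _) (by rw [Cardinal.mk_nat]; exact h0 n) g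
  haveI : ∀ n, Nonempty (kap (φ n)).ord.ToType := fun n => by
    rw [← Cardinal.mk_ne_zero_iff, Cardinal.mk_ord_toType]
    exact (kap_regular _).pos.ne'
  refine ⟨Sp f, inferInstance, t35, fun D hD => ?_, not_weak hb hcof⟩
  obtain ⟨h, hh⟩ := discrete_bounded (fun n g => by
    obtain ⟨b, hb'⟩ := bdd_of_lt (kap_regular (φ n))
      (mk_seg_lt (fun n => kap (φ n)) (kap_strictMono.comp hφ) h0 n) g
    exact ⟨b, fun i => (hb' i).le⟩) D hD
  obtain ⟨a, ha⟩ := hcof h
  exact (isLindelof_CC hmono a).of_isClosed_subset isClosed_closure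
    (closure_minimal (hh.trans (CC_mono ha)) (isClosed_CC a))

end Pool.Agent.H105Z.DL
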